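import Pool.Agent.Q17.LEF.Defs

/-! Basic facts on balls and LEF growth. -/

namespace Q17.LEF

variable {Γ : Type} [Group Γ]

lemma ball_mono (S : Set Γ) {m n : ℕ} (h : m ≤ n) : ball S m ⊆ ball S n := by
  rintro g ⟨l, hl, hS, hg⟩
  exact ⟨l, hl.trans h, hS, hg⟩

lemma one_mem_ball (S : Set Γ) (n : ℕ) : (1 : Γ) ∈ ball S n := ⟨[], by simp, by simp, by simp⟩

lemma mem_ball_one {S : Set Γ} {g : Γ} (h : g ∈ S) : g ∈ ball S 1 :=
  ⟨[g], by simp, by simp [h], by simp⟩

lemma mul_mem_ball {S : Set Γ} {m n : ℕ} {g h : Γ} (hg : g ∈ ball S m) (hh : h ∈ ball S n) :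
    g * h ∈ ball S (m + n) := by
  obtain ⟨l, hl, hS, rfl⟩ := hg
  obtain ⟨l', hl', hS', rfl⟩ := hh
  refine ⟨l ++ l', by simp; omega, ?_, by simp⟩
  intro x hx
  rw [List.mem_append] at hx
  exact hx.elim (hS x) (hS' x)

lemma inv_mem_ball {S : Set Γ} {n : ℕ} {g : Γ} (hg : g ∈ ball S n) : g⁻¹ ∈ ball S n := by
  obtain ⟨l, hl, hS, rfl⟩ := hg
  refine ⟨(l.map (fun x => x⁻¹)).reverse, by simpa using hl, ?_, ?_⟩
  · intro x hx
    simp only [List.mem_reverse, List.mem_map] at hx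
    obtain ⟨y, hy, rfl⟩ := hx
    rw [inv_inv]
    exact (hS y hy).symm
  · rw [List.prod_inv_reverse]

lemma pow_mem_ball {S : Set Γ} {n : ℕ} {g : Γ} (hg : g ∈ ball S n) (k : ℕ) :
    g ^ k ∈ ball S (k * n) := by
  induction k with
  | zero => simpa using one_mem_ball S 0
  | succ k ih =>
    rw [pow_succ, Nat.succ_mul]
    exact mul_mem_ball ih hg

lemma ball_subset_of_gen {S S' : Set Γ} {C : ℕ} (h : ∀ s ∈ S, s ∈ ball S' C) (n : ℕ) :
    ball S n ⊆ ball S' (n * C) := by
  rintro g ⟨l, hl, hS, rfl⟩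
  have key : ∀ l : List Γ, (∀ x ∈ l, x ∈ S ∨ x⁻¹ ∈ S) → l.prod ∈ ball S' (l.length * C) := by
    intro l
    induction l with
    | nil => intro _; simpa using one_mem_ball S' 0
    | cons a l ih =>
      intro hl
      rw [List.prod_cons, List.length_cons, Nat.succ_mul, add_comm]
      refine mul_mem_ball ?_ (ih fun x hx => hl x (by simp [hx]))
      rcases hl a (by simp) with h1 | h1
      · exact h a h1
      · have := inv_mem_ball (h _ h1)
        rwa [inv_inv] at this
  exact ball_mono S' (Nat.mul_le_mul_right C hl) (key l hS)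

lemma exists_mem_ball {S : Set Γ} {g : Γ} (hg : g ∈ Subgroup.closure S) : ∃ n, g ∈ ball S n := by
  refine Subgroup.closure_induction (p := fun g _ => ∃ n, g ∈ ball S n) ?_ ?_ ?_ ?_ hg
  · intro x hx; exact ⟨1, mem_ball_one hx⟩
  · exact ⟨0, one_mem_ball S 0⟩
  · rintro x y _ _ ⟨m, hm⟩ ⟨n, hn⟩; exact ⟨m + n, mul_mem_ball hm hn⟩
  · rintro x _ ⟨m, hm⟩; exact ⟨m, inv_mem_ball hm⟩

/-- comparison of balls of two finite generating sets -/
lemma ball_compare {S S' : Set Γ} (hS : S.Finite) (hS' : Subgroup.closure S' = ⊤) :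
    ∃ C : ℕ, ∀ n, ball S n ⊆ ball S' (n * C) := by
  have h : ∀ s : Γ, ∃ n, s ∈ ball S' n := fun s =>
    exists_mem_ball (by rw [hS']; trivial)
  choose N hN using h
  refine ⟨hS.toFinset.sup N, fun n => ball_subset_of_gen (fun s hs => ?_) n⟩
  exact ball_mono S' (Finset.le_sup (f := N) (hS.mem_toFinset.mpr hs)) (hN s)

lemma finite_ball {S : Set Γ} (hS : S.Finite) (n : ℕ) : (ball S n).Finite := by
  induction n with
  | zero =>
    refine Set.Finite.subset (Set.finite_singleton (1 : Γ)) ?_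
    rintro g ⟨l, hl, -, rfl⟩
    have : l = [] := List.eq_nil_of_length_eq_zero (Nat.le_zero.mp hl)
    simp [this]
  | succ n ih =>
    have hfin : (insert (1 : Γ) (S ∪ (fun x => x⁻¹) '' S)).Finite :=
      (hS.union (hS.image _)).insert 1
    refine Set.Finite.subset (Set.Finite.image2 (fun a b => a * b) hfin ih) ?_
    rintro g ⟨l, hl, hS', rfl⟩
    cases l with
    | nil => exact ⟨1, by simp, 1, one_mem_ball S n, by simp⟩
    | cons a l =>
      refine ⟨a, ?_, l.prod, ⟨l, by simpa using hl, fun x hx => hS' x (by simp [hx]), rfl⟩,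
        by simp⟩
      rcases hS' a (by simp) with h | h
      · exact Or.inr (Or.inl h)
      · exact Or.inr (Or.inr ⟨_, h, inv_inv a⟩)

lemma IsLocalEmbedding.mono {Q : Type} [Group Q] {F F' : Set Γ} (h : F ⊆ F') {π : Γ → Q}
    (hπ : IsLocalEmbedding F' π) : IsLocalEmbedding F π :=
  ⟨hπ.1.mono h, fun g hg k hk hgk => hπ.2 g (h hg) k (h hk) (h hgk)⟩

/-- monotonicity of the LEF growth -/
lemma lefGrowth_le {S S' : Set Γ} {m n : ℕ} (h : ball S m ⊆ ball S' n) (hΓ : IsLEF Γ)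
    (hS' : S'.Finite) : lefGrowth S m ≤ lefGrowth S' n := by
  have hne : {k | ∃ (Q : Type) (_ : Group Q) (_ : Finite Q) (π : Γ → Q),
      IsLocalEmbedding (ball S' n) π ∧ Nat.card Q = k}.Nonempty := by
    obtain ⟨Q, i1, i2, π, hπ⟩ := hΓ _ (finite_ball hS' n)
    exact ⟨_, Q, i1, i2, π, hπ, rfl⟩
  obtain ⟨Q, i1, i2, π, hπ, hk⟩ := Nat.sInf_mem hne
  exact Nat.sInf_le ⟨Q, i1, i2, π, hπ.mono h, hk⟩

/-- `ball` is monotone up to constants and `⪯` for one pair of generating sets gives it for all -/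
lemma preceq_change {Δ : Type} [Group Δ] {S S₀ : Set Γ} {T T₀ : Set Δ}
    (hS : IsFiniteGenerating S) (hS₀ : IsFiniteGenerating S₀)
    (hT : IsFiniteGenerating T) (hT₀ : IsFiniteGenerating T₀)
    (hΓ : IsLEF Γ) (hΔ : IsLEF Δ) (h : Preceq (lefGrowth S) (lefGrowth T)) :
    ∃ C : ℕ, ∀ n, 1 ≤ n → lefGrowth S₀ n ≤ lefGrowth T₀ (C * n) := by
  obtain ⟨c, hc, h⟩ := h
  obtain ⟨C₁, h₁⟩ := ball_compare hS₀.1 hS.2
  obtain ⟨C₂, h₂⟩ := ball_compare hT.1 hT₀.2
  refine ⟨(⌈c * (C₁ + 1)⌉₊ + 1) * C₂, fun n hn => ?_⟩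
  have e1 : lefGrowth S₀ n ≤ lefGrowth S (n * (C₁ + 1)) :=
    lefGrowth_le ((h₁ n).trans (ball_mono S (by gcongr; omega))) hΓ hS.1
  have hpos : (0 : ℝ) < ((n * (C₁ + 1) : ℕ) : ℝ) := by
    have : 0 < n * (C₁ + 1) := by positivity
    exact_mod_cast this
  have e2 := h _ hpos
  unfold extend at e2
  rw [Nat.ceil_natCast] at e2
  have e3 : lefGrowth S (n * (C₁ + 1)) ≤ lefGrowth T ⌈c * ((n * (C₁ + 1) : ℕ) : ℝ)⌉₊ := by
    exact_mod_cast e2
  have e4 : ⌈c * ((n * (C₁ + 1) : ℕ) : ℝ)⌉₊ ≤ (⌈c * (C₁ + 1)⌉₊ + 1) * n := by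
    apply Nat.ceil_le.mpr
    push_cast
    have h5 : c * (C₁ + 1) ≤ ⌈c * (C₁ + 1)⌉₊ := Nat.le_ceil _
    have hn0 : (0 : ℝ) ≤ n := Nat.cast_nonneg n
    nlinarith
  have e5 : lefGrowth T ⌈c * ((n * (C₁ + 1) : ℕ) : ℝ)⌉₊ ≤
      lefGrowth T₀ ((⌈c * (C₁ + 1)⌉₊ + 1) * C₂ * n) := by
    refine lefGrowth_le ?_ hΔ hT₀.1
    refine (ball_mono T e4).trans ((h₂ _).trans (ball_mono T₀ ?_))
    apply le_of_eq
    ring
  exact e1.trans (e3.trans e5)

/-- Lower bound: many noncommuting pairs that commute mutually. -/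
lemma pow_le_of_pairs {Q : Type} [Group Q] [Finite Q] {ι : Type} [Fintype ι] (x y : ι → Q)
    (h1 : ∀ i j, i ≠ j → x i * y j = y j * x i) (h2 : ∀ i, x i * y i ≠ y i * x i) :
    2 ^ Fintype.card ι ≤ Nat.card Q := by
  classical
  let e : ι ≃ Fin (Fintype.card ι) := Fintype.equivFin ι
  -- ordered products
  let L : List ι := (List.finRange (Fintype.card ι)).map e.symm
  have hL : ∀ i, i ∈ L := by
    intro i
    simp only [L, List.mem_map, List.mem_finRange, true_and]
    exact ⟨e i, by simp⟩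
  have hLn : L.Nodup := (List.nodup_finRange _).map e.symm.injective
  let X : Finset ι → Q := fun T => ((L.filter (fun i => i ∈ T)).map x).prod
  have hcomm : ∀ (l : List ι) (j : ι), j ∉ l → (l.map x).prod * y j = y j * (l.map x).prod := by
    intro l j
    induction l with
    | nil => intro _; simp
    | cons a l ih =>
      intro hj
      simp only [List.mem_cons, not_or] at hj
      rw [List.map_cons, List.prod_cons, mul_assoc, ih hj.2, ← mul_assoc, h1 a j (Ne.symm hj.1),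
        mul_assoc]
  have hX : ∀ (T : Finset ι) (j : ι), X T * y j = y j * X T ↔ j ∉ T := by
    intro T j
    constructor
    · intro h hj
      -- split the list at `j`
      have hmem : j ∈ L.filter (fun i => i ∈ T) := by simp [hL j, hj]
      obtain ⟨l₁, l₂, hl⟩ := List.append_of_mem hmem
      have hnd : (l₁ ++ j :: l₂).Nodup := by rw [← hl]; exact hLn.filter _
      rw [List.nodup_append] at hnd
      have hj1 : j ∉ l₁ := fun hh => hnd.2.2 j hh j (by simp) rfl
      have hj2 : j ∉ l₂ := (List.nodup_cons.mp hnd.2.1).1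
      have hprod : X T = (l₁.map x).prod * (x j * (l₂.map x).prod) := by
        change ((L.filter (fun i => i ∈ T)).map x).prod = _
        rw [hl]; simp
      rw [hprod] at h
      have c1 := hcomm l₁ j hj1
      have c2 := hcomm l₂ j hj2
      apply h2 j
      have e1 : (l₁.map x).prod * (x j * (l₂.map x).prod) * y j =
          (l₁.map x).prod * (x j * y j) * (l₂.map x).prod := by
        rw [mul_assoc, mul_assoc (x j), c2]
        group
      have e2 : y j * ((l₁.map x).prod * (x j * (l₂.map x).prod)) =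
          (l₁.map x).prod * (y j * x j) * (l₂.map x).prod := by
        rw [← mul_assoc, ← c1]
        group
      rw [e1, e2] at h
      exact mul_left_cancel (mul_right_cancel h)
    · intro hj
      exact hcomm _ j (by simp [hj])
  have hinj : Function.Injective X := by
    intro T T' h
    ext j
    have h3 := hX T j
    have h4 := hX T' j
    rw [h] at h3
    tauto
  have h3 := Nat.card_le_card_of_injective X hinj
  rw [Nat.card_eq_fintype_card, Fintype.card_finset] at h3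
  exact h3

end Q17.LEF
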