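import Mathlib

/-! LEF groups and LEF growth. -/

namespace Q17.LEF

/-- The map `π` restricts to a local embedding of the subset `F` of `Γ` into the group `Q`: it is
injective on `F` and `π (g * h) = π g * π h` whenever `g`, `h` and `g * h` lie in `F`.  (Only the
values of `π` on `F` matter.) -/
def IsLocalEmbedding {Γ Q : Type} [Group Γ] [Group Q] (F : Set Γ) (π : Γ → Q) : Prop :=
  Set.InjOn π F ∧ ∀ g ∈ F, ∀ h ∈ F, g * h ∈ F → π (g * h) = π g * π h

/-- `Γ` is LEF: every finite subset admits a local embedding into a finite group. -/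
def IsLEF (Γ : Type) [Group Γ] : Prop :=
  ∀ F : Set Γ, F.Finite → ∃ (Q : Type) (_ : Group Q) (_ : Finite Q) (π : Γ → Q),
    IsLocalEmbedding F π

/-- The closed ball of radius `n` about `1` in the word metric of `S`: the products of at most `n`
elements each of which lies in `S` or has its inverse in `S`. -/
def ball {Γ : Type} [Group Γ] (S : Set Γ) (n : ℕ) : Set Γ :=
  {g | ∃ l : List Γ, l.length ≤ n ∧ (∀ x ∈ l, x ∈ S ∨ x⁻¹ ∈ S) ∧ l.prod = g}

/-- The LEF growth of `Γ` with respect to `S`: the least order of a finite group into which the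
ball of radius `n` admits a local embedding. -/
noncomputable def lefGrowth {Γ : Type} [Group Γ] (S : Set Γ) (n : ℕ) : ℕ :=
  sInf {k | ∃ (Q : Type) (_ : Group Q) (_ : Finite Q) (π : Γ → Q),
    IsLocalEmbedding (ball S n) π ∧ Nat.card Q = k}

/-- The extension of a function on the natural numbers to the positive reals which is constant on
each interval `(n, n + 1]`. -/
noncomputable def extend (f : ℕ → ℕ) (x : ℝ) : ℝ := f ⌈x⌉₊

/-- `f₁ ⪯ f₂`: there is `C > 0` with `f₁ x ≤ f₂ (C x)` for all `x > 0`. -/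
def Preceq (f₁ f₂ : ℕ → ℕ) : Prop :=
  ∃ C : ℝ, 0 < C ∧ ∀ x : ℝ, 0 < x → extend f₁ x ≤ extend f₂ (C * x)

/-- `f₁ ≈ f₂`. -/
def Approx (f₁ f₂ : ℕ → ℕ) : Prop := Preceq f₁ f₂ ∧ Preceq f₂ f₁

/-- `S` is a finite generating set of `Γ`. -/
def IsFiniteGenerating {Γ : Type} [Group Γ] (S : Set Γ) : Prop :=
  S.Finite ∧ Subgroup.closure S = ⊤

end Q17.LEF
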