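import Pool.Agent.Q17.LEF.Wreath

/-! The groups and the lower bound for their LEF growth. -/

open scoped commutatorElement

namespace Q17.LEF

open W

/-- the lamp group -/
abbrev L : Type := Equiv.Perm (Fin 3)

/-- the basis vector with index `k` of `Fin r → ZMod 2`, and `0` when `k` is outside `[0, r)` -/
def e (r : ℕ) (k : ℤ) : Fin r → ZMod 2 := fun i => if (i : ℤ) = k then 1 else 0

lemma e_zero {r : ℕ} {k : ℤ} (h : k < 0 ∨ (r : ℤ) ≤ k) : e r k = 0 := by
  funext i
  have := i.2
  unfold e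
  rw [if_neg (by omega)]
  rfl

lemma e_ne_zero {r : ℕ} {k : ℤ} (h0 : 0 ≤ k) (h1 : k < r) : e r k ≠ 0 := by
  intro h
  have := congrFun h ⟨k.toNat, by omega⟩
  simp [e, h0] at this

/-- the fibre over one point of `ℤ` -/
abbrev Fib (r : ℕ → ℕ) : Type :=
  (∀ j : ℕ, W (Fin (r j) → ZMod 2) L) × (L × Multiplicative (ZMod 2))

/-- the ambient group -/
abbrev Amb (r : ℕ → ℕ) : Type := W ℤ (Fib r)

section

variable (r : ℕ → ℕ) (X : Set ℕ)

open Classical in
noncomputable def aVal (x : ℤ) : Fib r :=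
  (fun j => if j ∈ X then tr (e (r j) (-x - r j)) else 1,
    (1, if x = 0 then Multiplicative.ofAdd 1 else 1))

open Classical in
noncomputable def cVal (σ : L) : Fib r := (fun j => if j ∈ X then lamp 0 σ else 1, (σ, 1))

noncomputable def gT : Amb r := tr 1
noncomputable def gA : Amb r := fib (aVal r X)
noncomputable def gC (σ : L) : Amb r := lamp 0 (cVal r X σ)

def sg : L := Equiv.swap 0 1
def ta : L := Equiv.swap 1 2

/-- the generators -/
noncomputable def gens : Set (Amb r) := {gT r, gA r X, gC r X sg, gC r X ta}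

/-- the group `Γ_X` -/
abbrev Gam : Subgroup (Amb r) := Subgroup.closure (gens r X)

end

lemma comm_mem_ball {Γ : Type} [Group Γ] {S : Set Γ} {m n : ℕ} {g h : Γ} (hg : g ∈ ball S m)
    (hh : h ∈ ball S n) : ⁅g, h⁆ ∈ ball S (m + n + m + n) := by
  rw [commutatorElement_def]
  exact mul_mem_ball (mul_mem_ball (mul_mem_ball hg hh) (inv_mem_ball hg)) (inv_mem_ball hh)

lemma lefGrowth_lower {Γ : Type} [Group Γ] {S : Set Γ} (hS : S.Finite) (hΓ : IsLEF Γ) {ι : Type}
    [Fintype ι] (x y : ι → Γ) (n : ℕ) (hx : ∀ i, x i ∈ ball S n) (hy : ∀ i, y i ∈ ball S n)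
    (h1 : ∀ i j, i ≠ j → x i * y j = y j * x i) (h2 : ∀ i, x i * y i ≠ y i * x i) :
    2 ^ Fintype.card ι ≤ lefGrowth S (n + n) := by
  have hne : {k | ∃ (Q : Type) (_ : Group Q) (_ : Finite Q) (π : Γ → Q),
      IsLocalEmbedding (ball S (n + n)) π ∧ Nat.card Q = k}.Nonempty := by
    obtain ⟨Q, i1, i2, π, hπ⟩ := hΓ _ (finite_ball hS (n + n))
    exact ⟨_, Q, i1, i2, π, hπ, rfl⟩
  obtain ⟨Q, i1, i2, π, hπ, hk⟩ := Nat.sInf_mem hne
  unfold lefGrowth
  rw [← hk]
  have hx' : ∀ i, x i ∈ ball S (n + n) := fun i => ball_mono S (by omega) (hx i)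
  have hy' : ∀ i, y i ∈ ball S (n + n) := fun i => ball_mono S (by omega) (hy i)
  refine pow_le_of_pairs (fun i => π (x i)) (fun i => π (y i)) ?_ ?_
  · intro i j hij
    rw [← hπ.2 _ (hx' i) _ (hy' j) (mul_mem_ball (hx i) (hy j)), h1 i j hij,
      hπ.2 _ (hy' j) _ (hx' i) (mul_mem_ball (hy j) (hx i))]
  · intro i heq
    apply h2 i
    apply hπ.1 (mul_mem_ball (hx i) (hy i)) (mul_mem_ball (hy i) (hx i))
    rw [hπ.2 _ (hx' i) _ (hy' i) (mul_mem_ball (hx i) (hy i)),
      hπ.2 _ (hy' i) _ (hx' i) (mul_mem_ball (hy i) (hx i))]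
    exact heq

/-- balls of the subgroup generated by `T` -/
lemma mem_ball_sub {G : Type} [Group G] {T : Set G} {n : ℕ} {g : Subgroup.closure T} :
    g ∈ ball (Subtype.val ⁻¹' T : Set (Subgroup.closure T)) n ↔ (g : G) ∈ ball T n := by
  constructor
  · rintro ⟨l, hl, hS, rfl⟩
    refine ⟨l.map Subtype.val, by simpa using hl, ?_, ?_⟩
    · intro x hx
      rw [List.mem_map] at hx
      obtain ⟨y, hy, rfl⟩ := hx
      exact hS y hy
    · have := map_list_prod (Subgroup.closure T).subtype l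
      simpa using this.symm
  · rintro ⟨l, hl, hS, hg⟩
    have key : ∀ l : List G, (∀ x ∈ l, x ∈ T ∨ x⁻¹ ∈ T) → ∃ l' : List (Subgroup.closure T),
        l'.length = l.length ∧ (∀ x ∈ l', x ∈ (Subtype.val ⁻¹' T : Set (Subgroup.closure T)) ∨
          x⁻¹ ∈ (Subtype.val ⁻¹' T : Set (Subgroup.closure T))) ∧ (l'.prod : G) = l.prod := by
      intro l
      induction l with
      | nil => intro _; exact ⟨[], rfl, by simp, by simp⟩
      | cons a l ih =>
        intro h
        obtain ⟨l', h1, h2, h3⟩ := ih (fun x hx => h x (by simp [hx]))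
        have ha : a ∈ Subgroup.closure T := by
          rcases h a (by simp) with h4 | h4
          · exact Subgroup.subset_closure h4
          · rw [← inv_inv a]; exact inv_mem (Subgroup.subset_closure h4)
        refine ⟨⟨a, ha⟩ :: l', by simp [h1], ?_,
          by rw [List.prod_cons, Subgroup.coe_mul, h3, List.prod_cons]⟩
        intro x hx
        rw [List.mem_cons] at hx
        rcases hx with rfl | hx
        · exact h a (by simp)
        · exact h2 x hx
    obtain ⟨l', h1, h2, h3⟩ := key l hS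
    exact ⟨l', by omega, h2, Subtype.ext (by rw [h3, hg])⟩

lemma gens_finite (r : ℕ → ℕ) (X : Set ℕ) : (gens r X).Finite := by
  unfold gens; exact Set.toFinite _

lemma isFiniteGenerating_sub {G : Type} [Group G] {T : Set G} (hT : T.Finite) :
    IsFiniteGenerating (Subtype.val ⁻¹' T : Set (Subgroup.closure T)) :=
  ⟨hT.preimage Subtype.val_injective.injOn, Subgroup.closure_closure_coe_preimage⟩

section lower

variable {r : ℕ → ℕ} {X : Set ℕ} (hr : ∀ j i, j < i → 2 * r j ≤ r i) (hr1 : ∀ j, 1 ≤ r j)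

include hr hr1

lemma aVal_eq {i : ℕ} (hi : i ∈ X) {k : ℤ} (h0 : 0 ≤ k) (h1 : k < r i) :
    aVal r X (-(r i + k)) = (Pi.mulSingle i (tr (e (r i) k)), 1) := by
  have h2 := hr1 i
  unfold aVal
  refine Prod.ext ?_ ?_
  · funext j
    by_cases hj : j = i
    · subst hj
      simp [hi]
    · simp only [Pi.mulSingle_eq_of_ne hj]
      split_ifs
      · rw [e_zero, tr_zero]
        rcases Nat.lt_or_gt_of_ne hj with h | h
        · have := hr _ _ h
          omega
        · have := hr _ _ h
          omega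
      · rfl
  · rw [if_neg (by omega)]
    rfl

lemma exists_h {i : ℕ} (hi : i ∈ X) (v : Fin (r i) → ZMod 2) (k : ℕ) (hk : k ≤ r i) :
    ∃ h ∈ ball (gens r X) (r i + 2 * k), h.s = r i + k ∧
      h.f 0 = (Pi.mulSingle i (tr (fun l => if l.val < k then v l else 0)), 1) := by
  have ht : gT r ∈ ball (gens r X) 1 := mem_ball_one (by simp [gens])
  have ha : gA r X ∈ ball (gens r X) 1 := mem_ball_one (by simp [gens])
  induction k with
  | zero =>
    refine ⟨gT r ^ (r i), by simpa using pow_mem_ball ht (r i), ?_, ?_⟩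
    · rw [pow_s]; simp [gT]
    · rw [gT, tr_pow]
      simp only [not_lt_zero, if_false, tr_f]
      have : (fun _ : Fin (r i) => (0 : ZMod 2)) = 0 := rfl
      rw [this, tr_zero, Pi.mulSingle_one]
      rfl
  | succ k ih =>
    obtain ⟨h, hb, hs, hf⟩ := ih (by omega)
    have hvk : v ⟨k, hk⟩ = 0 ∨ v ⟨k, hk⟩ = 1 := by
      generalize v ⟨k, hk⟩ = z
      revert z; decide
    rcases hvk with hv | hv
    · refine ⟨h * gT r, ball_mono _ (by omega) (mul_mem_ball hb ht), ?_, ?_⟩
      · simp [gT, hs]; ring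
      · have e1 : (fun l : Fin (r i) => if l.val < k + 1 then v l else 0) =
            (fun l : Fin (r i) => if l.val < k then v l else 0) := by
          funext l
          by_cases h1 : l.val = k
          · have : l = ⟨k, hk⟩ := Fin.ext h1
            rw [this, hv]; simp
          · by_cases h2 : l.val < k
            · rw [if_pos h2, if_pos (by omega)]
            · rw [if_neg h2, if_neg (by omega)]
        rw [e1, ← hf]
        simp [gT]
    · refine ⟨h * gA r X * gT r, ball_mono _ (by omega)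
        (mul_mem_ball (mul_mem_ball hb ha) ht), ?_, ?_⟩
      · simp [gT, gA, hs]; ring
      · have e1 : (fun l : Fin (r i) => if l.val < k + 1 then v l else 0) =
            (fun l : Fin (r i) => if l.val < k then v l else 0) + e (r i) k := by
          funext l
          simp only [Pi.add_apply, e]
          by_cases h1 : l.val = k
          · have : l = ⟨k, hk⟩ := Fin.ext h1
            rw [this, hv]; simp
          · by_cases h2 : l.val < k
            · rw [if_pos h2, if_pos (by omega), if_neg (by omega), add_zero]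
            · rw [if_neg h2, if_neg (by omega), if_neg (by omega), add_zero]
        have e2 := aVal_eq hr hr1 hi (k := (k : ℤ)) (by omega) (by omega)
        rw [e1, tr_add, Pi.mulSingle_mul]
        simp only [mul_f, gT, gA, tr_f, mul_one, fib_f]
        rw [hf, hs, zero_sub, e2]
        rfl

lemma exists_w {i : ℕ} (hi : i ∈ X) (v : Fin (r i) → ZMod 2) :
    ∃ w ∈ ball (gens r X) (5 * r i), w.s = 0 ∧ w.f 0 = (Pi.mulSingle i (tr v), 1) := by
  obtain ⟨h, hb, hs, hf⟩ := exists_h hr hr1 hi v (r i) le_rfl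
  have ht : gT r ∈ ball (gens r X) 1 := mem_ball_one (by simp [gens])
  refine ⟨h * (gT r ^ (2 * r i))⁻¹, ball_mono _ (by omega)
    (mul_mem_ball hb (inv_mem_ball (pow_mem_ball ht (2 * r i)))), ?_, ?_⟩
  · rw [mul_s, inv_s, pow_s, hs]; simp [gT]; ring
  · have e1 : (fun l : Fin (r i) => if l.val < r i then v l else 0) = v := by
      funext l; rw [if_pos l.2]
    rw [e1] at hf
    rw [mul_f, hf, gT, tr_pow]
    simp

/-- the isolated element -/
lemma exists_x {i : ℕ} (hi : i ∈ X) :
    (lamp 0 (Pi.mulSingle i (lamp 0 ⁅sg, ta⁆), 1) : Amb r) ∈ ball (gens r X) (8 * r i + 10) := by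
  have ht : gT r ∈ ball (gens r X) 1 := mem_ball_one (by simp [gens])
  have ha : gA r X ∈ ball (gens r X) 1 := mem_ball_one (by simp [gens])
  have hc1 : gC r X sg ∈ ball (gens r X) 1 := mem_ball_one (by simp [gens])
  have hc2 : gC r X ta ∈ ball (gens r X) 1 := mem_ball_one (by simp [gens])
  have htr := pow_mem_ball ht (r i)
  have hA : gT r ^ (r i) * gA r X * (gT r ^ (r i))⁻¹ ∈ ball (gens r X) (r i * 1 + 1 + r i * 1) :=
    mul_mem_ball (mul_mem_ball htr ha) (inv_mem_ball htr)
  have hx := comm_mem_ball hc1 (comm_mem_ball hc2 hA)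
  have heq : ⁅gC r X sg, ⁅gC r X ta, gT r ^ (r i) * gA r X * (gT r ^ (r i))⁻¹⁆⁆ =
      (lamp 0 (Pi.mulSingle i (lamp 0 ⁅sg, ta⁆), 1) : Amb r) := by
    refine ext' (fun y => ?_) (by rw [comm_s]; rfl)
    have hAs : (gT r ^ (r i) * gA r X * (gT r ^ (r i))⁻¹).s = 0 := by simp [gA]
    have hAf : (gT r ^ (r i) * gA r X * (gT r ^ (r i))⁻¹).f y = aVal r X (y - r i) := by
      rw [gT, tr_pow]
      simp [gA]
    rw [comm_f (by rfl) (comm_s _ _), comm_f (by rfl) hAs, hAf]
    by_cases hy : y = 0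
    · subst hy
      have e2 := aVal_eq hr hr1 hi (k := 0) le_rfl (by have := hr1 i; omega)
      rw [add_zero] at e2
      rw [zero_sub, e2]
      simp only [gC, lamp_f_same]
      refine Prod.ext ?_ ?_
      · funext j
        change ⁅(cVal r X sg).1 j, ⁅(cVal r X ta).1 j, (Pi.mulSingle i (tr (e (r i) 0)) :
          ∀ j : ℕ, W (Fin (r j) → ZMod 2) L) j⁆⁆ = _
        by_cases hj : j = i
        · subst hj
          simp only [cVal, hi, if_true, Pi.mulSingle_eq_same]
          exact double_comm (e_ne_zero le_rfl (by have := hr1 j; omega)) sg ta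
        · simp only [Pi.mulSingle_eq_of_ne hj]
          simp [commutatorElement_def]
      · change ⁅(cVal r X sg).2, ⁅(cVal r X ta).2, (1 : L × Multiplicative (ZMod 2))⁆⁆ = _
        simp [commutatorElement_def]
    · simp only [gC, lamp_f_ne hy]
      simp [commutatorElement_def]
  rw [← heq]
  exact ball_mono _ (by omega) hx

/-- the pairs -/
lemma exists_pair {i : ℕ} (hi : i ∈ X) (v : Fin (r i) → ZMod 2) :
    ∃ x ∈ ball (gens r X) (28 * r i), ∃ y ∈ ball (gens r X) (28 * r i),
      x = lamp 0 (Pi.mulSingle i (lamp v ⁅sg, ta⁆), 1) ∧ y.s = 0 ∧ (∀ z, z ≠ 0 → y.f z = 1) ∧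
      (y.f 0).1 i = lamp v sg := by
  obtain ⟨w, hb, hs, hf⟩ := exists_w hr hr1 hi v
  have h1 := hr1 i
  have hc1 : gC r X sg ∈ ball (gens r X) 1 := mem_ball_one (by simp [gens])
  refine ⟨w * lamp 0 (Pi.mulSingle i (lamp 0 ⁅sg, ta⁆), 1) * w⁻¹, ball_mono _ (by omega)
    (mul_mem_ball (mul_mem_ball hb (exists_x hr hr1 hi)) (inv_mem_ball hb)), w * gC r X sg * w⁻¹,
    ball_mono _ (by omega) (mul_mem_ball (mul_mem_ball hb hc1) (inv_mem_ball hb)), ?_, ?_, ?_, ?_⟩
  · refine ext' (fun z => ?_) (by simp)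
    simp only [mul_f, mul_s, inv_f, hs, sub_zero, lamp_s, add_zero]
    by_cases hz : z = 0
    · subst hz
      simp only [lamp_f_same, hf]
      refine Prod.ext ?_ (by simp)
      funext j
      by_cases hj : j = i
      · subst hj
        simp [tr_conj_lamp]
      · simp [hj]
    · simp [lamp_f_ne hz]
  · simp [gC]
  · intro z hz
    simp [hs, gC, lamp_f_ne hz]
  · simp only [gC, mul_f, mul_s, inv_f, hs, sub_zero, lamp_s, add_zero, lamp_f_same, hf]
    change (Pi.mulSingle i (tr v) : ∀ j : ℕ, W (Fin (r j) → ZMod 2) L) i * (cVal r X sg).1 i *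
      ((Pi.mulSingle i (tr v) : ∀ j : ℕ, W (Fin (r j) → ZMod 2) L) i)⁻¹ = _
    simp [cVal, hi, tr_conj_lamp]

lemma lower_bound {i : ℕ} (hi : i ∈ X) (hΓ : IsLEF (Gam r X)) :
    2 ^ (2 ^ r i) ≤ lefGrowth (Subtype.val ⁻¹' gens r X : Set (Gam r X)) (56 * r i) := by
  choose x hx y hy hx1 hys hy1 hy2 using exists_pair hr hr1 hi
  have hmem : ∀ {n : ℕ} {g : Amb r}, g ∈ ball (gens r X) n → g ∈ Gam r X := by
    rintro n g ⟨l, -, hl, rfl⟩
    refine Subgroup.list_prod_mem _ fun x hx => ?_
    rcases hl x hx with h | h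
    · exact Subgroup.subset_closure h
    · rw [← inv_inv x]; exact inv_mem (Subgroup.subset_closure h)
  have key := lefGrowth_lower (isFiniteGenerating_sub (gens_finite r X)).1 hΓ
    (fun v => (⟨x v, hmem (hx v)⟩ : Gam r X)) (fun v => (⟨y v, hmem (hy v)⟩ : Gam r X))
    (28 * r i) (fun v => mem_ball_sub.mpr (hx v)) (fun v => mem_ball_sub.mpr (hy v)) ?_ ?_
  · have hc : Fintype.card (Fin (r i) → ZMod 2) = 2 ^ r i := by simp [ZMod.card]
    rw [hc] at key
    have : 28 * r i + 28 * r i = 56 * r i := by ring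
    rwa [this] at key
  · intro u v huv
    apply Subtype.ext
    change x u * y v = y v * x u
    rw [hx1 u]
    refine ext' (fun z => ?_) (by simp)
    simp only [mul_f, lamp_s, hys v, sub_zero]
    by_cases hz : z = 0
    · subst hz
      rw [lamp_f_same]
      refine Prod.ext ?_ (by simp)
      funext j
      by_cases hj : j = i
      · subst hj
        simp only [Prod.fst_mul, Pi.mul_apply, Pi.mulSingle_eq_same, hy2 v]
        exact comm_lamps huv _ _
      · simp [hj]
    · rw [lamp_f_ne hz, hy1 v z hz]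
  · intro u heq
    have h1 : x u * y u = y u * x u := congrArg Subtype.val heq
    rw [hx1 u] at h1
    have h2 := congrArg (fun g : Amb r => (g.f 0).1 i) h1
    simp only [mul_f, lamp_s, hys u, sub_zero, lamp_f_same, Prod.fst_mul, Pi.mul_apply,
      Pi.mulSingle_eq_same, hy2 u] at h2
    refine not_comm_lamps ?_ h2
    decide

end lower

end Q17.LEF
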