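import Pool.Agent.Q17.LEF.Upper

/-! The sequence `r` and the uncountable family. -/

namespace Q17.LEF

lemma exists_next (K q : ℕ) : ∃ n : ℕ, q ≤ n ∧ K * n < 2 ^ n := by
  have hsq : ∀ n : ℕ, 5 ≤ n → n * n < 2 ^ n := by
    intro n hn
    induction n, hn using Nat.le_induction with
    | base => norm_num
    | succ n hn ih => rw [pow_succ]; nlinarith
  refine ⟨K + q + 5, by omega, ?_⟩
  have := hsq (K + q + 5) (by omega)
  nlinarith

noncomputable def next (K q : ℕ) : ℕ := (exists_next K q).choose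

lemma next_ge (K q : ℕ) : q ≤ next K q := (exists_next K q).choose_spec.1
lemma next_lt (K q : ℕ) : K * next K q < 2 ^ next K q := (exists_next K q).choose_spec.2

/-- `(D i, r i)` -/
noncomputable def seq : ℕ → ℕ × ℕ
  | 0 => (12, next (4 * 13) 1)
  | i + 1 =>
    ((seq i).1 * (6 ^ (2 ^ (seq i).2) * 2 ^ (seq i).2),
      next ((224 * (i + 1) + 4) * ((seq i).1 * (6 ^ (2 ^ (seq i).2) * 2 ^ (seq i).2) + 1))
        (112 * (i + 1) * (seq i).2 + 1))

noncomputable def rr (i : ℕ) : ℕ := (seq i).2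
noncomputable def DD (i : ℕ) : ℕ := (seq i).1

lemma rr_one_le (i : ℕ) : 1 ≤ rr i := by
  cases i with
  | zero => exact next_ge _ _
  | succ i =>
    have : 112 * (i + 1) * rr i + 1 ≤ rr (i + 1) := next_ge _ _
    omega

lemma rr_succ (i : ℕ) : 112 * (i + 1) * rr i + 1 ≤ rr (i + 1) := next_ge _ _

lemma rr_bound (i : ℕ) : (224 * i + 4) * (DD i + 1) * rr i < 2 ^ rr i := by
  cases i with
  | zero => exact next_lt _ _
  | succ i => exact next_lt _ _

lemma rr_mono {i j : ℕ} (h : i ≤ j) : rr i ≤ rr j := by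
  induction j, h using Nat.le_induction with
  | base => exact le_rfl
  | succ j hj ih =>
    have h1 := rr_succ j
    have : rr j ≤ 112 * (j + 1) * rr j := Nat.le_mul_of_pos_left _ (by omega)
    omega

lemma rr_gap {i j : ℕ} (h : i < j) : 112 * (i + 1) * rr i < rr j := by
  have h1 := rr_succ i
  have h2 := rr_mono (show i + 1 ≤ j from h)
  omega

lemma rr_two {j i : ℕ} (h : j < i) : 2 * rr j ≤ rr i := by
  have h1 := rr_gap h
  have : 2 * rr j ≤ 112 * (j + 1) * rr j := Nat.mul_le_mul_right _ (by omega)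
  omega

lemma card_L : Nat.card L = 6 := by
  rw [Nat.card_eq_fintype_card, Fintype.card_perm, Fintype.card_fin]; rfl

lemma card_fib (i : ℕ) : Nat.card (Fib' rr i) = DD i := by
  have h1 : Nat.card (Fib' rr i) =
      (∏ j : Fin i, (6 ^ (2 ^ rr j) * 2 ^ rr j)) * 12 := by
    rw [Nat.card_prod, Nat.card_pi, Nat.card_prod, card_L]
    congr 1
    · refine Finset.prod_congr rfl fun j _ => ?_
      rw [W.card_eq, card_L]
      simp
    · simp
  rw [h1]
  clear h1
  induction i with
  | zero => simp [DD, seq]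
  | succ i ih =>
    rw [Fin.prod_univ_castSucc]
    simp only [Fin.val_castSucc, Fin.val_last]
    have : DD (i + 1) = DD i * (6 ^ (2 ^ rr i) * 2 ^ rr i) := rfl
    rw [this, ← ih]
    ring

/-- the comparison -/
lemma compare {X Y : Set ℕ} (h : ∀ n, ∃ i ∈ X, i ∉ Y ∧ n ≤ i) (C : ℕ) :
    ∃ n, 1 ≤ n ∧ lefGrowth (Subtype.val ⁻¹' gens rr Y : Set (Gam rr Y)) (C * n) <
      lefGrowth (Subtype.val ⁻¹' gens rr X : Set (Gam rr X)) n := by
  obtain ⟨i, hiX, hiY, hi⟩ := h C
  have hr1 := rr_one_le i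
  refine ⟨56 * rr i, by omega, ?_⟩
  have hlow := lower_bound (X := X) (fun _ _ => rr_two) rr_one_le hiX
    (isLEF (fun _ _ => rr_two) rr_one_le)
  refine lt_of_lt_of_le ?_ hlow
  have hm : C * (56 * rr i) ≤ i * (56 * rr i) := Nat.mul_le_mul_right _ hi
  have hX : ∀ j ∈ Y, i ≤ j → 2 * (i * (56 * rr i)) < rr j := by
    intro j hj hij
    have hne : i ≠ j := fun e => hiY (e ▸ hj)
    have h1 := rr_gap (show i < j by omega)
    nlinarith
  have hup := upper_bound (r := rr) (X := Y) (i := i) (m := i * (56 * rr i))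
    (fun _ hj => rr_two hj) hX
  have hle : lefGrowth (Subtype.val ⁻¹' gens rr Y : Set (Gam rr Y)) (C * (56 * rr i)) ≤
      lefGrowth (Subtype.val ⁻¹' gens rr Y : Set (Gam rr Y)) (i * (56 * rr i)) :=
    lefGrowth_le (ball_mono _ hm) (isLEF (fun _ _ => rr_two) rr_one_le)
      (isFiniteGenerating_sub (gens_finite rr Y)).1
  refine lt_of_le_of_lt (hle.trans hup) ?_
  rw [card_fib]
  set N := 2 * rr i + 4 * (i * (56 * rr i)) + 2 with hN
  have hNle : N ≤ (224 * i + 4) * rr i := by rw [hN]; nlinarith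
  have h1 : DD i ^ N ≤ 2 ^ (DD i * N) := by
    rw [pow_mul]
    exact Nat.pow_le_pow_left Nat.lt_two_pow_self.le _
  have h2 : N ≤ 2 ^ N := Nat.lt_two_pow_self.le
  calc DD i ^ N * N ≤ 2 ^ (DD i * N) * 2 ^ N := Nat.mul_le_mul h1 h2
    _ = 2 ^ ((DD i + 1) * N) := by rw [← pow_add]; congr 1; ring
    _ < 2 ^ (2 ^ rr i) := by
      apply Nat.pow_lt_pow_right (by norm_num)
      have h3 := rr_bound i
      have h4 : (DD i + 1) * N ≤ (DD i + 1) * ((224 * i + 4) * rr i) :=
        Nat.mul_le_mul_left _ hNle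
      have h5 : (DD i + 1) * ((224 * i + 4) * rr i) = (224 * i + 4) * (DD i + 1) * rr i := by ring
      omega

/-- the codes of the prefixes of `f` -/
def code (f : ℕ → Bool) : Set ℕ :=
  Set.range fun n => Encodable.encode ((List.range n).map f)

lemma code_diff {f g : ℕ → Bool} (hfg : f ≠ g) (n : ℕ) : ∃ i ∈ code f, i ∉ code g ∧ n ≤ i := by
  obtain ⟨k, hk⟩ := Function.ne_iff.mp hfg
  have hinj : Function.Injective fun n => Encodable.encode ((List.range n).map f) := by
    intro a b hab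
    have := congrArg List.length (Encodable.encode_injective hab)
    simpa using this
  have hinf : (Set.range fun n => Encodable.encode ((List.range (n + (k + 1))).map f)).Infinite :=
    Set.infinite_range_of_injective fun a b hab => by
      have := hinj hab
      omega
  obtain ⟨i, ⟨a, rfl⟩, hi⟩ := hinf.exists_gt n
  refine ⟨_, ⟨a + (k + 1), rfl⟩, ?_, hi.le⟩
  rintro ⟨b, hb⟩
  have h1 := Encodable.encode_injective hb
  have h2 : b = a + (k + 1) := by
    have := congrArg List.length h1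
    simpa using this
  subst h2
  have h3 := congrArg (fun l => l[k]?) h1
  simp at h3
  rw [List.getElem?_range (by omega)] at h3
  simp at h3
  exact hk h3.symm

lemma lefGrowth_equiv {Γ Δ : Type} [Group Γ] [Group Δ] (φ : Γ ≃* Δ) (S : Set Γ) (n : ℕ) :
    lefGrowth (φ '' S) n = lefGrowth S n := by
  have hball : ∀ g, φ g ∈ ball (φ '' S) n ↔ g ∈ ball S n := by
    intro g
    constructor
    · rintro ⟨l, hl, hS, hg⟩
      refine ⟨l.map φ.symm, by simpa using hl, ?_, ?_⟩
      · intro x hx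
        rw [List.mem_map] at hx
        obtain ⟨y, hy, rfl⟩ := hx
        rcases hS y hy with ⟨z, hz, h⟩ | ⟨z, hz, h⟩
        · left; rw [← h]; simpa using hz
        · right; rw [← map_inv, ← h]; simpa using hz
      · rw [← map_list_prod, hg]; simp
    · rintro ⟨l, hl, hS, rfl⟩
      refine ⟨l.map φ, by simpa using hl, ?_, by rw [map_list_prod]⟩
      intro x hx
      rw [List.mem_map] at hx
      obtain ⟨y, hy, rfl⟩ := hx
      rcases hS y hy with h | h
      · exact Or.inl ⟨y, h, rfl⟩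
      · exact Or.inr ⟨y⁻¹, h, by simp⟩
  unfold lefGrowth
  congr 1
  ext k
  constructor
  · rintro ⟨Q, i1, i2, π, hπ, hk⟩
    refine ⟨Q, i1, i2, fun g => π (φ g), ⟨?_, ?_⟩, hk⟩
    · intro g hg h hh e
      exact φ.injective (hπ.1 ((hball g).mpr hg) ((hball h).mpr hh) e)
    · intro g hg h hh hgh
      have := hπ.2 _ ((hball g).mpr hg) _ ((hball h).mpr hh)
        (by rw [← map_mul]; exact (hball _).mpr hgh)
      change π (φ (g * h)) = _
      rw [map_mul]
      exact this
  · rintro ⟨Q, i1, i2, π, hπ, hk⟩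
    have hb' : ∀ g, g ∈ ball (φ '' S) n → φ.symm g ∈ ball S n := by
      intro g hg
      rw [← hball, φ.apply_symm_apply]
      exact hg
    refine ⟨Q, i1, i2, fun g => π (φ.symm g), ⟨?_, ?_⟩, hk⟩
    · intro g hg h hh e
      exact φ.symm.injective (hπ.1 (hb' g hg) (hb' h hh) e)
    · intro g hg h hh hgh
      change π (φ.symm (g * h)) = _
      have := hb' _ hgh
      rw [map_mul] at this ⊢
      exact hπ.2 _ (hb' g hg) _ (hb' h hh) this

lemma IsFiniteGenerating.map {Γ Δ : Type} [Group Γ] [Group Δ] (φ : Γ ≃* Δ) {S : Set Γ}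
    (h : IsFiniteGenerating S) : IsFiniteGenerating (φ '' S) := by
  refine ⟨h.1.image _, ?_⟩
  have := congrArg (Subgroup.map φ.toMonoidHom) h.2
  rw [MonoidHom.map_closure, ← MonoidHom.range_eq_map] at this
  rw [show (φ '' S) = (φ.toMonoidHom '' S) from rfl, this]
  exact MonoidHom.range_eq_top.mpr φ.surjective

lemma not_preceq {f g : ℕ → Bool} (hfg : f ≠ g) (S : Set (Gam rr (code f)))
    (T : Set (Gam rr (code g))) (hS : IsFiniteGenerating S) (hT : IsFiniteGenerating T) :
    ¬ Preceq (lefGrowth S) (lefGrowth T) := by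
  intro h
  obtain ⟨C, hC⟩ := preceq_change hS (isFiniteGenerating_sub (gens_finite rr (code f))) hT
    (isFiniteGenerating_sub (gens_finite rr (code g)))
    (isLEF (fun _ _ => rr_two) rr_one_le) (isLEF (fun _ _ => rr_two) rr_one_le) h
  obtain ⟨n, h1, h2⟩ := compare (code_diff hfg) C
  exact absurd (hC n h1) (by omega)

theorem main : ∃ (G : (ℕ → Bool) → Type) (_ : ∀ i, Group (G i)),
    (∀ i, Group.FG (G i)) ∧ (∀ i, IsLEF (G i)) ∧
    (∀ i j, i ≠ j → IsEmpty (G i ≃* G j)) ∧
    (∀ i j, i ≠ j → ∀ (S : Set (G i)) (T : Set (G j)), IsFiniteGenerating S →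
      IsFiniteGenerating T → ¬ Preceq (lefGrowth S) (lefGrowth T)) := by
  refine ⟨fun f => Gam rr (code f), fun _ => inferInstance, ?_, ?_, ?_, ?_⟩
  · intro f
    have h := isFiniteGenerating_sub (gens_finite rr (code f))
    exact Group.fg_iff.mpr ⟨_, h.2, h.1⟩
  · intro f
    exact isLEF (fun _ _ => rr_two) rr_one_le
  · intro f g hfg
    refine ⟨fun φ => ?_⟩
    have h := isFiniteGenerating_sub (gens_finite rr (code f))
    refine not_preceq hfg _ _ h (h.map φ) ⟨1, one_pos, fun x _ => ?_⟩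
    unfold extend
    rw [lefGrowth_equiv, one_mul]
  · intro f g hfg S T hS hT
    exact not_preceq hfg S T hS hT

end Q17.LEF
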