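import Pool.Agent.Q17.LEF.Lower

/-! The upper bound. -/

namespace Q17.LEF

open W

/-- the truncated fibre -/
abbrev Fib' (r : ℕ → ℕ) (i : ℕ) : Type :=
  (∀ j : Fin i, W (Fin (r j) → ZMod 2) L) × (L × Multiplicative (ZMod 2))

/-- the projection to the truncated fibre -/
def pr (r : ℕ → ℕ) (i : ℕ) (p : Fib r) : Fib' r i := (fun j => p.1 j, p.2)

lemma pr_mul (r : ℕ → ℕ) (i : ℕ) (p q : Fib r) : pr r i (p * q) = pr r i p * pr r i q := rfl
lemma pr_one (r : ℕ → ℕ) (i : ℕ) : pr r i 1 = 1 := rfl

lemma ball_succ {Γ : Type} [Group Γ] {S : Set Γ} {k : ℕ} {g : Γ} (hg : g ∈ ball S (k + 1)) :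
    g ∈ ball S k ∨ ∃ h ∈ ball S k, ∃ s, (s ∈ S ∨ s⁻¹ ∈ S) ∧ g = h * s := by
  obtain ⟨l, hl, hS, rfl⟩ := hg
  rcases List.eq_nil_or_concat l with rfl | ⟨l', s, rfl⟩
  · left; simpa using one_mem_ball S k
  · right
    refine ⟨l'.prod, ⟨l', ?_, fun x hx => hS x (by simp [hx]), rfl⟩, s, hS s (by simp), by simp⟩
    simpa using hl

section

variable {r : ℕ → ℕ} {X : Set ℕ}

lemma cVal_inv (σ : L) : (cVal r X σ)⁻¹ = cVal r X σ⁻¹ := by
  unfold cVal
  refine Prod.ext ?_ (by simp)
  funext j
  simp only [Prod.fst_inv, Pi.inv_apply]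
  split_ifs
  · rw [lamp_inv]
  · simp

lemma neg_vec {n : ℕ} (v : Fin n → ZMod 2) : -v = v := by
  funext i
  simp [ZMod.neg_eq_self_mod_two]

lemma aVal_inv (x : ℤ) : (aVal r X x)⁻¹ = aVal r X x := by
  unfold aVal
  refine Prod.ext ?_ (Prod.ext (by simp) ?_)
  · funext j
    simp only [Prod.fst_inv, Pi.inv_apply]
    split_ifs
    · rw [← tr_neg, neg_vec]
    · simp
  · simp only [Prod.snd_inv]
    split_ifs
    · decide
    · simp

lemma letters {s : Amb r} (h : s ∈ gens r X ∨ s⁻¹ ∈ gens r X) :
    s = tr 1 ∨ s = tr (-1) ∨ s = fib (aVal r X) ∨ ∃ σ, s = lamp 0 (cVal r X σ) := by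
  simp only [gens, Set.mem_insert_iff, Set.mem_singleton_iff] at h
  rcases h with (h | h | h | h) | (h | h | h | h)
  · exact Or.inl h
  · exact Or.inr (Or.inr (Or.inl h))
  · exact Or.inr (Or.inr (Or.inr ⟨_, h⟩))
  · exact Or.inr (Or.inr (Or.inr ⟨_, h⟩))
  · refine Or.inr (Or.inl ?_)
    rw [← inv_inv s, h, gT, tr_neg]
  · refine Or.inr (Or.inr (Or.inl ?_))
    rw [← inv_inv s, h, gA]
    refine ext' (fun x => ?_) (by simp)
    simp [aVal_inv]
  · refine Or.inr (Or.inr (Or.inr ⟨sg⁻¹, ?_⟩))
    rw [← inv_inv s, h, gC, ← cVal_inv, lamp_inv]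
  · refine Or.inr (Or.inr (Or.inr ⟨ta⁻¹, ?_⟩))
    rw [← inv_inv s, h, gC, ← cVal_inv, lamp_inv]

/-- the sum which determines the hidden components -/
noncomputable def hid (m : ℕ) (g : Amb r) (x : ℤ) (j : ℕ) : Fin (r j) → ZMod 2 :=
  ∑ y ∈ Finset.Icc (-(m : ℤ)) m, (Multiplicative.toAdd (g.f y).2.2) • e (r j) (y - x - r j)

lemma invariant {i m R : ℕ} (hR : ∀ j < i, 2 * r j ≤ R) (k : ℕ) (hk : k ≤ m) :
    ∀ g ∈ ball (gens r X) k, |g.s| ≤ k ∧
      (∀ x : ℤ, ((k : ℤ) < x ∨ x < -R - k) → pr r i (g.f x) = 1) ∧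
      (∀ x : ℤ, ∀ j, j ∉ X → (g.f x).1 j = 1) ∧
      (∀ x : ℤ, ∀ j, j ∈ X → 2 * m < r j →
        (g.f x).1 j = lamp 0 (g.f x).2.1 * tr (hid m g x j)) := by
  induction k with
  | zero =>
    rintro g ⟨l, hl, -, rfl⟩
    have : l = [] := List.eq_nil_of_length_eq_zero (Nat.le_zero.mp hl)
    subst this
    refine ⟨by simp, fun x _ => by simp [pr_one], fun x j _ => by simp, fun x j _ _ => ?_⟩
    have h0 : hid m (List.prod ([] : List (Amb r))) x j = 0 := by
      unfold hid
      refine Finset.sum_eq_zero fun y _ => ?_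
      simp
    rw [h0]
    simp
  | succ k ih =>
    intro g hg
    rcases ball_succ hg with hg | ⟨h, hh, s, hs, rfl⟩
    · obtain ⟨h1, h2, h3, h4⟩ := ih (by omega) g hg
      refine ⟨by push_cast; omega, fun x hx => h2 x (by push_cast at hx; omega), h3, h4⟩
    · obtain ⟨h1, h2, h3, h4⟩ := ih (by omega) h hh
      rw [abs_le] at h1
      rcases letters hs with rfl | rfl | rfl | ⟨σ, rfl⟩
      · refine ⟨?_, ?_, ?_, ?_⟩
        · rw [mul_s, tr_s, abs_le]; push_cast; omega
        · intro x hx
          rw [mul_f, tr_f, mul_one]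
          exact h2 x (by push_cast at hx; omega)
        · intro x j hj
          rw [mul_f, tr_f, mul_one]
          exact h3 x j hj
        · intro x j hj hm
          rw [mul_f, tr_f, mul_one, h4 x j hj hm]
          congr 2
          unfold hid
          simp
      · refine ⟨?_, ?_, ?_, ?_⟩
        · rw [mul_s, tr_s, abs_le]; push_cast; omega
        · intro x hx
          rw [mul_f, tr_f, mul_one]
          exact h2 x (by push_cast at hx; omega)
        · intro x j hj
          rw [mul_f, tr_f, mul_one]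
          exact h3 x j hj
        · intro x j hj hm
          rw [mul_f, tr_f, mul_one, h4 x j hj hm]
          congr 2
          unfold hid
          simp
      · refine ⟨?_, ?_, ?_, ?_⟩
        · rw [mul_s, fib_s, abs_le]; push_cast; omega
        · intro x hx
          rw [mul_f, pr_mul, h2 x (by push_cast at hx; omega), one_mul, fib_f]
          have hx' : 0 < x - h.s ∨ x - h.s < -R := by push_cast at hx; omega
          unfold pr aVal
          refine Prod.ext ?_ ?_
          · funext j
            simp only [Prod.fst_one, Pi.one_apply]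
            have := hR j j.2
            split_ifs
            · rw [e_zero (by omega), tr_zero]
            · rfl
          · simp only
            rw [if_neg (by omega)]
            rfl
        · intro x j hj
          rw [mul_f, Prod.fst_mul, Pi.mul_apply, h3 x j hj, one_mul]
          simp [aVal, hj]
        · intro x j hj hm
          rw [mul_f, Prod.fst_mul, Pi.mul_apply, h4 x j hj hm]
          have e1 : (aVal r X (x - h.s)).1 j = tr (e (r j) (h.s - x - r j)) := by
            simp [aVal, hj]
          have e2 : (h.f x * aVal r X (x - h.s)).2.1 = (h.f x).2.1 := by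
            simp [aVal]
          rw [fib_f, e1, e2, mul_assoc, ← tr_add]
          congr 2
          unfold hid
          have e3 : ∀ y : ℤ, Multiplicative.toAdd ((h * fib (aVal r X)).f y).2.2 •
              e (r j) (y - x - r j) = Multiplicative.toAdd (h.f y).2.2 • e (r j) (y - x - r j) +
                (if y = h.s then e (r j) (y - x - r j) else 0) := by
            intro y
            by_cases hy : y = h.s
            · subst hy
              simp [aVal, add_smul]
            · have : y - h.s ≠ 0 := by omega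
              simp [aVal, hy, this]
          rw [Finset.sum_congr rfl (fun y _ => e3 y), Finset.sum_add_distrib,
            Finset.sum_ite_eq' _ h.s, if_pos (by rw [Finset.mem_Icc]; omega)]
      · refine ⟨?_, ?_, ?_, ?_⟩
        · rw [mul_s, lamp_s, abs_le]; push_cast; omega
        · intro x hx
          rw [mul_f, pr_mul, h2 x (by push_cast at hx; omega), one_mul,
            lamp_f_ne (by push_cast at hx; omega)]
          rfl
        · intro x j hj
          rw [mul_f, Prod.fst_mul, Pi.mul_apply, h3 x j hj, one_mul]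
          by_cases hx : x - h.s = 0
          · rw [hx, lamp_f_same]; simp [cVal, hj]
          · rw [lamp_f_ne hx]; rfl
        · intro x j hj hm
          have e0 : ∀ y : ℤ, ((h * lamp 0 (cVal r X σ)).f y).2.2 = (h.f y).2.2 := by
            intro y
            by_cases hy : y - h.s = 0
            · rw [mul_f, hy, lamp_f_same]; simp [cVal]
            · rw [mul_f, lamp_f_ne hy]; simp
          have e1 : hid m (h * lamp 0 (cVal r X σ)) x j = hid m h x j := by
            unfold hid
            exact Finset.sum_congr rfl fun y _ => by rw [e0 y]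
          rw [e1]
          by_cases hx : x - h.s = 0
          · have e2 : hid m h x j = 0 := by
              unfold hid
              refine Finset.sum_eq_zero fun y hy => ?_
              rw [Finset.mem_Icc] at hy
              rw [e_zero (by omega), smul_zero]
            rw [mul_f, Prod.fst_mul, Pi.mul_apply, h4 x j hj hm, hx, lamp_f_same, e2]
            simp [cVal, hj, lamp_mul]
          · rw [mul_f, lamp_f_ne hx, mul_one, h4 x j hj hm]

theorem local_emb {i m R : ℕ} (hR : ∀ j < i, 2 * r j ≤ R)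
    (hX : ∀ j ∈ X, i ≤ j → 2 * m < r j) :
    ∃ π : Gam r X → W (ZMod (2 * R + 4 * m + 2)) (Fib' r i),
      IsLocalEmbedding (ball (Subtype.val ⁻¹' gens r X : Set (Gam r X)) m) π := by
  set N : ℕ := 2 * R + 4 * m + 2 with hN
  have : NeZero N := ⟨by omega⟩
  refine ⟨fun g => ⟨fun x => pr r i (g.1.f x.valMinAbs), (g.1.s : ZMod N)⟩, ?_, ?_⟩
  · intro g hg h hh heq
    rw [mem_ball_sub] at hg hh
    obtain ⟨g1, g2, g3, g4⟩ := invariant hR m le_rfl _ hg
    obtain ⟨h1, h2, h3, h4⟩ := invariant hR m le_rfl _ hh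
    rw [abs_le] at g1 h1
    simp only [W.mk.injEq] at heq
    obtain ⟨ef, es⟩ := heq
    apply Subtype.ext
    have hs : g.1.s = h.1.s := by
      rw [ZMod.intCast_eq_intCast_iff] at es
      have := Int.ModEq.dvd es
      have h5 : |h.1.s - g.1.s| < (N : ℤ) := by rw [abs_lt]; omega
      have := Int.eq_zero_of_abs_lt_dvd this h5
      omega
    have hpr : ∀ x : ℤ, pr r i (g.1.f x) = pr r i (h.1.f x) := by
      intro x
      by_cases hx : (m : ℤ) < x ∨ x < -R - m
      · rw [g2 x hx, h2 x hx]
      · have hv : (x : ZMod N).valMinAbs = x := by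
          rw [ZMod.valMinAbs_spec]
          refine ⟨rfl, ?_⟩
          rw [Set.mem_Ioc]
          push Not at hx
          constructor <;> omega
        have := congrFun ef (x : ZMod N)
        rwa [hv] at this
    refine ext' (fun x => ?_) hs
    have hinf : ∀ x : ℤ, (g.1.f x).2 = (h.1.f x).2 := fun x =>
      congrArg (fun p : Fib' r i => p.2) (hpr x)
    refine Prod.ext ?_ (hinf x)
    funext j
    by_cases hj : j ∈ X
    · by_cases hij : j < i
      · exact congrFun (congrArg (fun p : Fib' r i => p.1) (hpr x)) ⟨j, hij⟩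
      · have hm := hX j hj (by omega)
        rw [g4 x j hj hm, h4 x j hj hm, hinf x]
        congr 2
        unfold hid
        exact Finset.sum_congr rfl fun y _ => by rw [hinf y]
    · rw [g3 x j hj, h3 x j hj]
  · intro g hg h hh _
    rw [mem_ball_sub] at hg hh
    obtain ⟨g1, g2, g3, g4⟩ := invariant hR m le_rfl _ hg
    obtain ⟨h1, h2, h3, h4⟩ := invariant hR m le_rfl _ hh
    rw [abs_le] at g1 h1
    refine ext' (fun x => ?_) (by simp)
    simp only [Subgroup.coe_mul, mul_f, pr_mul]
    congr 1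
    set v := x.valMinAbs with hv
    set v' := (x - (g.1.s : ZMod N)).valMinAbs with hv'
    have b1 := ZMod.valMinAbs_mem_Ioc x
    have b2 := ZMod.valMinAbs_mem_Ioc (x - (g.1.s : ZMod N))
    rw [← hv, Set.mem_Ioc] at b1
    rw [← hv', Set.mem_Ioc] at b2
    have hcong : ((v' : ℤ) : ZMod N) = ((v - g.1.s : ℤ) : ZMod N) := by
      rw [hv', ZMod.coe_valMinAbs, Int.cast_sub, hv, ZMod.coe_valMinAbs]
    rw [ZMod.intCast_eq_intCast_iff] at hcong
    have hdvd := Int.ModEq.dvd hcong
    by_cases heq : v - g.1.s = v'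
    · rw [heq]
    · have hge : (N : ℤ) ≤ |v - g.1.s - v'| := by
        by_contra hlt
        push Not at hlt
        exact heq (by have := Int.eq_zero_of_abs_lt_dvd hdvd hlt; omega)
      rw [le_abs] at hge
      rw [h2 (v - g.1.s) (by omega), h2 v' (by omega)]

instance (i : ℕ) : Finite (Fib' r i) := inferInstance

theorem upper_bound {i m : ℕ} (hR : ∀ j < i, 2 * r j ≤ r i)
    (hX : ∀ j ∈ X, i ≤ j → 2 * m < r j) :
    lefGrowth (Subtype.val ⁻¹' gens r X : Set (Gam r X)) m ≤
      Nat.card (Fib' r i) ^ (2 * r i + 4 * m + 2) * (2 * r i + 4 * m + 2) := by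
  obtain ⟨π, hπ⟩ := local_emb hR hX
  have : NeZero (2 * r i + 4 * m + 2) := ⟨by omega⟩
  refine Nat.sInf_le ⟨_, inferInstance, inferInstance, π, hπ, ?_⟩
  rw [W.card_eq, Nat.card_zmod]

theorem isLEF (hr : ∀ j i, j < i → 2 * r j ≤ r i) (hr1 : ∀ j, 1 ≤ r j) : IsLEF (Gam r X) := by
  intro F hF
  have hgen := isFiniteGenerating_sub (gens_finite r X)
  have h : ∀ g : Gam r X, ∃ n, g ∈ ball (Subtype.val ⁻¹' gens r X : Set (Gam r X)) n := fun g =>
    exists_mem_ball (by rw [hgen.2]; trivial)
  choose n hn using h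
  set m := hF.toFinset.sup n with hm
  have hsub : F ⊆ ball (Subtype.val ⁻¹' gens r X : Set (Gam r X)) m := fun g hg =>
    ball_mono _ (Finset.le_sup (f := n) (hF.mem_toFinset.mpr hg)) (hn g)
  have hgrow : ∀ j, j < r j := by
    intro j
    induction j with
    | zero => exact hr1 0
    | succ j ih =>
      have := hr j (j + 1) (by omega)
      omega
  obtain ⟨π, hπ⟩ := local_emb (r := r) (X := X) (i := 2 * m) (m := m) (R := r (2 * m))
    (fun j hj => hr j _ hj) (fun j _ hj => by have := hgrow j; omega)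
  have : NeZero (2 * r (2 * m) + 4 * m + 2) := ⟨by omega⟩
  exact ⟨_, inferInstance, inferInstance, π, hπ.mono hsub⟩

end

end Q17.LEF
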