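import Pool.Agent.Q17.LEF.Basic

/-! The unrestricted wreath products `W A P` and the ambient group. -/

open scoped commutatorElement

namespace Q17.LEF

/-- the unrestricted wreath product of `P` by `A` -/
@[ext] structure W (A P : Type) where
  f : A → P
  s : A

namespace W

variable {A P : Type} [AddCommGroup A] [Group P]

instance : Mul (W A P) := ⟨fun g h => ⟨fun x => g.f x * h.f (x - g.s), g.s + h.s⟩⟩
instance : One (W A P) := ⟨⟨fun _ => 1, 0⟩⟩
instance : Inv (W A P) := ⟨fun g => ⟨fun x => (g.f (x + g.s))⁻¹, -g.s⟩⟩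

@[simp] lemma mul_f (g h : W A P) (x : A) : (g * h).f x = g.f x * h.f (x - g.s) := rfl
@[simp] lemma mul_s (g h : W A P) : (g * h).s = g.s + h.s := rfl
@[simp] lemma one_f (x : A) : (1 : W A P).f x = 1 := rfl
@[simp] lemma one_s : (1 : W A P).s = 0 := rfl
@[simp] lemma inv_f (g : W A P) (x : A) : (g⁻¹).f x = (g.f (x + g.s))⁻¹ := rfl
@[simp] lemma inv_s (g : W A P) : (g⁻¹).s = -g.s := rfl

lemma ext' {g h : W A P} (h1 : ∀ x, g.f x = h.f x) (h2 : g.s = h.s) : g = h :=
  W.ext (funext h1) h2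

instance : Group (W A P) :=
  Group.ofLeftAxioms
    (fun a b c => ext' (fun x => by simp [mul_assoc, sub_sub]) (by simp [add_assoc]))
    (fun a => ext' (fun x => by simp) (by simp))
    (fun a => ext' (fun x => by simp) (by simp))

/-- translation -/
def tr (w : A) : W A P := ⟨fun _ => 1, w⟩

/-- fibrewise element -/
def fib (φ : A → P) : W A P := ⟨φ, 0⟩

@[simp] lemma tr_f (w x : A) : (tr w : W A P).f x = 1 := rfl
@[simp] lemma tr_s (w : A) : (tr w : W A P).s = w := rfl
@[simp] lemma fib_f (φ : A → P) (x : A) : (fib φ).f x = φ x := rfl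
@[simp] lemma fib_s (φ : A → P) : (fib φ).s = 0 := rfl

lemma tr_add (v w : A) : (tr (v + w) : W A P) = tr v * tr w :=
  ext' (fun x => by simp) (by simp)

@[simp] lemma tr_zero : (tr 0 : W A P) = 1 := rfl

lemma tr_neg (v : A) : (tr (-v) : W A P) = (tr v)⁻¹ :=
  ext' (fun x => by simp) (by simp)

lemma pow_s (g : W A P) (n : ℕ) : (g ^ n).s = n • g.s := by
  induction n with
  | zero => simp
  | succ n ih => rw [pow_succ, mul_s, ih, succ_nsmul]

lemma tr_pow (v : A) (n : ℕ) : (tr v : W A P) ^ n = tr (n • v) := by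
  induction n with
  | zero => simp
  | succ n ih => rw [pow_succ, ih, ← tr_add, succ_nsmul]

/-- the commutator of two fibrewise elements is computed fibrewise -/
lemma comm_f {g h : W A P} (hg : g.s = 0) (hh : h.s = 0) (x : A) :
    (⁅g, h⁆).f x = ⁅g.f x, h.f x⁆ := by
  simp [commutatorElement_def, hg, hh]

lemma comm_s (g h : W A P) : (⁅g, h⁆).s = 0 := by
  simp [commutatorElement_def]

open Classical in
/-- a single lamp at `u` -/
noncomputable def lamp (u : A) (σ : P) : W A P := fib (Pi.mulSingle u σ)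

@[simp] lemma lamp_s (u : A) (σ : P) : (lamp u σ).s = 0 := rfl

lemma lamp_f_same (u : A) (σ : P) : (lamp u σ).f u = σ := by
  simp [lamp]

lemma lamp_f_ne {u v : A} (h : v ≠ u) (σ : P) : (lamp u σ).f v = 1 := by
  simp [lamp, h]

@[simp] lemma lamp_one (u : A) : (lamp u 1 : W A P) = 1 := by
  refine ext' (fun x => ?_) rfl
  simp [lamp]

lemma lamp_mul (u : A) (σ τ : P) : lamp u (σ * τ) = lamp u σ * lamp u τ := by
  refine ext' (fun x => ?_) (by simp)
  by_cases h : x = u
  · subst h; simp [lamp]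
  · simp [lamp, h]

lemma lamp_inv (u : A) (σ : P) : lamp u σ⁻¹ = (lamp u σ)⁻¹ := by
  refine ext' (fun x => ?_) (by simp)
  by_cases h : x = u
  · subst h; simp [lamp]
  · simp [lamp, h]

lemma tr_conj_lamp (u v : A) (σ : P) : tr v * lamp u σ * (tr v)⁻¹ = lamp (u + v) σ := by
  refine ext' (fun x => ?_) (by simp)
  by_cases h : x = u + v
  · subst h; simp [lamp]
  · have h' : x - v ≠ u := fun e => h (by rw [← e]; abel)
    simp [lamp, h, h']

lemma comm_lamps {u v : A} (h : u ≠ v) (σ τ : P) :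
    lamp u σ * lamp v τ = lamp v τ * lamp u σ := by
  refine ext' (fun x => ?_) (by simp)
  by_cases h1 : x = u
  · subst h1; simp [lamp, h]
  · simp [lamp, h1]

lemma not_comm_lamps {u : A} {σ τ : P} (h : σ * τ ≠ τ * σ) :
    lamp u σ * lamp u τ ≠ lamp u τ * lamp u σ := by
  intro e
  have := congrArg (fun g => W.f g u) e
  simp [lamp] at this
  exact h this

/-- the double commutator which isolates the lamp at `0` -/
lemma double_comm {w : A} (hw : w ≠ 0) (σ τ : P) :
    ⁅(lamp 0 σ : W A P), ⁅(lamp 0 τ : W A P), (tr w : W A P)⁆⁆ = lamp 0 ⁅σ, τ⁆ := by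
  have e1 : ⁅(lamp 0 τ : W A P), (tr w : W A P)⁆ = lamp 0 τ * lamp w τ⁻¹ := by
    have := tr_conj_lamp 0 w τ⁻¹
    rw [zero_add] at this
    rw [← this, commutatorElement_def, lamp_inv]
    group
  rw [e1]
  refine ext' (fun x => ?_) (by rw [comm_s]; rfl)
  rw [comm_f (by simp) (by simp)]
  by_cases h1 : x = 0
  · subst h1
    simp [lamp, hw.symm, commutatorElement_def]
  · simp [lamp, h1, commutatorElement_def]

instance [Finite A] [Finite P] : Finite (W A P) :=
  Finite.of_injective (fun g : W A P => (g.f, g.s)) (fun g h e => by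
    simp only [Prod.mk.injEq] at e
    exact W.ext e.1 e.2)

omit [AddCommGroup A] [Group P] in
lemma card_eq [Finite A] [Finite P] : Nat.card (W A P) = Nat.card P ^ Nat.card A * Nat.card A := by
  have e : W A P ≃ (A → P) × A :=
    ⟨fun g => (g.f, g.s), fun p => ⟨p.1, p.2⟩, fun _ => rfl, fun _ => rfl⟩
  rw [Nat.card_congr e, Nat.card_prod, Nat.card_fun]

end W

end Q17.LEF
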